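import Pool.Agent.helper63.NU.Defs2

set_option autoImplicit false
set_option linter.all false

/-! Module B1: changes of charts. -/

open MeasureTheory Filter Topology Set
open scoped ContDiff Manifold Matrix ENNReal ComplexOrder

noncomputable section

namespace Pool.Agent.helper63.NU

variable {n : ℕ} {M : Type*} [TopologicalSpace M] [ChartedSpace (E n) M]
  [IsManifold 𝓘(ℂ, E n) ω M]
variable {e e' e'' : Ch n M}

theorem isOpen_trans (e e' : Ch n M) : IsOpen (e.target ∩ e.symm ⁻¹' e'.source) :=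
  e.symm.isOpen_inter_preimage e'.open_source

theorem trans_analytic (he : e ∈ atlas (E n) M) (he' : e' ∈ atlas (E n) M) :
    AnalyticOnNhd ℂ (fun y => e' (e.symm y)) (e.target ∩ e.symm ⁻¹' e'.source) := by
  have h1 : e.symm ≫ₕ e' ∈ contDiffGroupoid ω 𝓘(ℂ, E n) :=
    StructureGroupoid.compatible _ he he'
  rw [contDiffGroupoid, mem_groupoid_of_pregroupoid] at h1
  have h2 : ContDiffOn ℂ ω (fun y => e' (e.symm y)) (e.target ∩ e.symm ⁻¹' e'.source) := by
    refine ContDiffOn.mono (h1.1 : ContDiffOn ℂ ω _ _) ?_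
    intro y hy
    simpa using hy
  exact (isOpen_trans e e').analyticOn_iff_analyticOnNhd.1 h2.analyticOn

omit [ChartedSpace (E n) M] [IsManifold 𝓘(ℂ, E n) ω M] in
theorem mem_trans_of_mem {x : M} (hx : x ∈ e.source) (hx' : x ∈ e'.source) :
    e x ∈ e.target ∩ e.symm ⁻¹' e'.source :=
  ⟨e.map_source hx, by rw [mem_preimage, e.left_inv hx]; exact hx'⟩

theorem trans_differentiableAt (he : e ∈ atlas (E n) M) (he' : e' ∈ atlas (E n) M)
    {x : M} (hx : x ∈ e.source) (hx' : x ∈ e'.source) :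
    DifferentiableAt ℂ (fun y => e' (e.symm y)) (e x) :=
  (trans_analytic he he' _ (mem_trans_of_mem hx hx')).differentiableAt

omit [ChartedSpace (E n) M] [IsManifold 𝓘(ℂ, E n) ω M] in
theorem jac_self' {x : M} (hx : x ∈ e.source) : jac e e (e x) = 1 := by
  unfold jac
  have h1 : (fun z => e (e.symm z)) =ᶠ[𝓝 (e x)] fun z => z := by
    filter_upwards [e.open_target.mem_nhds (e.map_source hx)] with z hz
    exact e.right_inv hz
  rw [h1.fderiv_eq]
  have h2 : fderiv ℂ (fun z : E n => z) (e x) = ContinuousLinearMap.id ℂ (E n) := fderiv_id'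
  rw [h2]
  show LinearMap.det _ = 1
  simp

theorem jac_self (he : e ∈ atlas (E n) M) {x : M} (hx : x ∈ e.source) : jac e e (e x) = 1 :=
  jac_self' hx

theorem jac_mul (he : e ∈ atlas (E n) M) (he' : e' ∈ atlas (E n) M) (he'' : e'' ∈ atlas (E n) M)
    {x : M} (hx : x ∈ e.source) (hx' : x ∈ e'.source) (hx'' : x ∈ e''.source) :
    jac e e'' (e x) = jac e' e'' (e' x) * jac e e' (e x) := by
  have h1 : (fun z => e'' (e.symm z)) =ᶠ[𝓝 (e x)]
      (fun z => e'' (e'.symm z)) ∘ fun z => e' (e.symm z) := by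
    filter_upwards [(isOpen_trans e e').mem_nhds (mem_trans_of_mem hx hx')] with z hz
    show e'' (e.symm z) = e'' (e'.symm (e' (e.symm z)))
    rw [e'.left_inv hz.2]
  have h2 := trans_differentiableAt he he' hx hx'
  have h3 := trans_differentiableAt he' he'' hx' hx''
  have h4 : e' (e.symm (e x)) = e' x := by
    rw [e.left_inv hx]
  unfold jac
  rw [h1.fderiv_eq, fderiv_comp (e x) (by rw [h4]; exact h3) h2, h4]
  show LinearMap.det _ = LinearMap.det _ * LinearMap.det _
  rw [← LinearMap.det_comp]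
  rfl

theorem jac_ne_zero (he : e ∈ atlas (E n) M) (he' : e' ∈ atlas (E n) M)
    {x : M} (hx : x ∈ e.source) (hx' : x ∈ e'.source) : jac e e' (e x) ≠ 0 := by
  intro h0
  have h1 := jac_mul he he' he hx hx' hx
  rw [jac_self he hx, h0, mul_zero] at h1
  exact one_ne_zero h1

/-- `D_{ij} = ∂_j (e' ∘ e⁻¹)_i` has determinant `jac` -/
theorem jac_eq_det (e e' : Ch n M) (y : E n) : jac e e' y =
    (Matrix.of fun i j => fderiv ℂ (fun z => e' (e.symm z)) y (Pi.single j 1) i).det := by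
  unfold jac
  show LinearMap.det _ = _
  rw [← LinearMap.det_toMatrix']
  congr 1

theorem jac_analytic (he : e ∈ atlas (E n) M) (he' : e' ∈ atlas (E n) M) :
    AnalyticOnNhd ℂ (jac e e') (e.target ∩ e.symm ⁻¹' e'.source) := by
  have h1 := (trans_analytic he he').fderiv
  have h2 : jac e e' = fun y => ∑ σ : Equiv.Perm (Fin n), ((Equiv.Perm.sign σ : ℤ) : ℂ) *
      ∏ i, fderiv ℂ (fun z => e' (e.symm z)) y (Pi.single i 1) (σ i) := by
    funext y
    rw [jac_eq_det, Matrix.det_apply']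
    rfl
  rw [h2]
  intro y hy
  refine Finset.analyticAt_fun_sum _ fun σ _ => ?_
  refine analyticAt_const.mul ?_
  refine Finset.analyticAt_fun_prod _ fun i _ => ?_
  have h3 : AnalyticAt ℂ (fun z => (fderiv ℂ (fun z => e' (e.symm z)) z) (Pi.single i 1)) y :=
    ((ContinuousLinearMap.apply ℂ (E n) (Pi.single i 1 : E n)).analyticAt _).comp (h1 y hy)
  exact ((ContinuousLinearMap.proj (R := ℂ) (φ := fun _ : Fin n => ℂ) (σ i)).analyticAt _).comp h3

/-- real version of `trans_analytic` -/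
theorem trans_contDiffOn (he : e ∈ atlas (E n) M) (he' : e' ∈ atlas (E n) M) :
    ContDiffOn ℝ ∞ (fun y => e' (e.symm y)) (e.target ∩ e.symm ⁻¹' e'.source) :=
  ((trans_analytic he he').contDiffOn (isOpen_trans e e').uniqueDiffOn).restrict_scalars ℝ

/-- Smoothness may be checked in the charts of a covering family. -/
theorem sm_of_cover {f : M → ℂ} (h : ∀ x : M, ∃ e ∈ atlas (E n) M, x ∈ e.source ∧
    ∃ U, IsOpen U ∧ e x ∈ U ∧ U ⊆ e.target ∧ ContDiffOn ℝ ∞ (fun y => f (e.symm y)) U) :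
    Sm n f := by
  intro e he y hy
  obtain ⟨e1, he1, hx1, U, hU, hxU, hUt, hf⟩ := h (e.symm y)
  have hys : e.symm y ∈ e.source := e.map_target hy
  have hy1 : y ∈ e.target ∩ e.symm ⁻¹' e1.source := ⟨hy, hx1⟩
  have h1 : ContDiffAt ℝ ∞ (fun y => e1 (e.symm y)) y :=
    (trans_contDiffOn he he1).contDiffAt ((isOpen_trans e e1).mem_nhds hy1)
  have h2 : ContDiffAt ℝ ∞ (fun y => f (e1.symm y)) (e1 (e.symm y)) :=
    hf.contDiffAt (hU.mem_nhds hxU)
  have h3 : ContDiffAt ℝ ∞ ((fun y => f (e1.symm y)) ∘ fun y => e1 (e.symm y)) y :=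
    ContDiffAt.comp y h2 h1
  refine (h3.congr_of_eventuallyEq ?_).contDiffWithinAt
  filter_upwards [(isOpen_trans e e1).mem_nhds hy1] with z hz
  show f (e.symm z) = f (e1.symm (e1 (e.symm z)))
  rw [e1.left_inv hz.2]

end Pool.Agent.helper63.NU
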