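import Pool.Agent.helper69.NU.B1
import Pool.Agent.helper22.Zd.O

set_option autoImplicit false
set_option linter.all false

/-! Module B2: partition of unity, extension by zero, algebra of sections. -/

open MeasureTheory Filter Topology Set
open scoped ContDiff Manifold Matrix ENNReal ComplexOrder

noncomputable section

namespace Pool.Agent.helper63.NU

variable {n : ℕ} {M : Type*} [TopologicalSpace M] [ChartedSpace (E n) M]
  [IsManifold 𝓘(ℂ, E n) ω M]

namespace B2aux

/-- smooth real functions -/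
def SmR (n : ℕ) {M : Type*} [TopologicalSpace M] [ChartedSpace (E n) M] (f : M → ℝ) : Prop :=
  ∀ e ∈ atlas (E n) M, ContDiffOn ℝ ∞ (fun y => f (e.symm y)) e.target

omit [IsManifold 𝓘(ℂ, E n) ω M] in
theorem SmR.sm {f : M → ℝ} (hf : SmR n f) : Sm n fun x => ((f x : ℝ) : ℂ) := by
  intro e he
  exact Complex.ofRealCLM.contDiff.comp_contDiffOn (hf e he)

/-- local criterion -/
theorem contDiffOn_of_local {F : Type*} [NormedAddCommGroup F] [NormedSpace ℝ F]
    {S : Set (E n)} {g : E n → F} (h : ∀ y ∈ S, ContDiffAt ℝ ∞ g y) : ContDiffOn ℝ ∞ g S :=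
  fun y hy => (h y hy).contDiffWithinAt

open Classical in
/-- a bump function in a chart -/
theorem exists_bump [T2Space M] (U : M → Set M) (hU : ∀ x, U x ∈ 𝓝 x) (x : M) :
    ∃ ψ : M → ℝ, SmR n ψ ∧ (∀ m, 0 ≤ ψ m) ∧ (∃ W, IsOpen W ∧ x ∈ W ∧ ∀ m ∈ W, 0 < ψ m) ∧
      tsupport ψ ⊆ U x ∩ (chartAt (E n) x).source := by
  set c := chartAt (E n) x with hc
  have hxs : x ∈ c.source := mem_chart_source _ x
  have hV : IsOpen (c.target ∩ c.symm ⁻¹' (interior (U x))) :=
    c.symm.isOpen_inter_preimage isOpen_interior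
  have hxV : c x ∈ c.target ∩ c.symm ⁻¹' (interior (U x)) :=
    ⟨c.map_source hxs, by
      rw [mem_preimage, c.left_inv hxs]
      exact mem_interior_iff_mem_nhds.2 (hU x)⟩
  obtain ⟨r, hr, hrV⟩ := Metric.nhds_basis_closedBall.mem_iff.1 (hV.mem_nhds hxV)
  let b : ContDiffBump (c x) := ⟨r / 2, r, by positivity, by linarith⟩
  let ψ : M → ℝ := fun m => if m ∈ c.source then b (c m) else 0
  have hψ : ∀ m ∈ c.source, ψ m = b (c m) := fun m hm => if_pos hm
  have hψ0 : ∀ m, m ∉ c.source → ψ m = 0 := fun m hm => if_neg hm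
  set K : Set M := c.symm '' Metric.closedBall (c x) r with hK
  have hKc : IsCompact K := (isCompact_closedBall (c x) r).image_of_continuousOn
    (c.continuousOn_symm.mono fun y hy => (hrV hy).1)
  have hKs : K ⊆ U x ∩ c.source := by
    rintro _ ⟨y, hy, rfl⟩
    exact ⟨interior_subset (hrV hy).2, c.map_target (hrV hy).1⟩
  have hsup : ∀ m, m ∉ K → ψ m = 0 := by
    intro m hm
    by_cases h1 : m ∈ c.source
    · rw [hψ m h1]
      refine b.zero_of_le_dist ?_
      by_contra h2
      refine hm ⟨c m, ?_, c.left_inv h1⟩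
      rw [Metric.mem_closedBall]
      exact (not_le.1 h2).le
    · exact hψ0 m h1
  have hts : tsupport ψ ⊆ K := by
    refine closure_minimal ?_ hKc.isClosed
    intro m hm
    by_contra h
    exact hm (hsup m h)
  refine ⟨ψ, ?_, ?_, ⟨c.source ∩ c ⁻¹' (Metric.ball (c x) r), ?_, ?_, ?_⟩, hts.trans hKs⟩
  · intro e he
    refine contDiffOn_of_local fun y hy => ?_
    by_cases h1 : e.symm y ∈ c.source
    · have hmem : y ∈ e.target ∩ e.symm ⁻¹' c.source := ⟨hy, h1⟩
      have h2 : ContDiffAt ℝ ∞ (fun z => c (e.symm z)) y :=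
        (trans_contDiffOn he (chart_mem_atlas (E n) x)).contDiffAt
          ((isOpen_trans e c).mem_nhds hmem)
      have hb : ContDiffAt ℝ ∞ (fun w : E n => b w) ((fun z => c (e.symm z)) y) :=
        b.contDiff.contDiffAt
      have h3 : ContDiffAt ℝ ∞ ((fun w : E n => b w) ∘ fun z => c (e.symm z)) y :=
        ContDiffAt.comp y hb h2
      refine h3.congr_of_eventuallyEq ?_
      filter_upwards [(isOpen_trans e c).mem_nhds hmem] with z hz
      exact hψ _ hz.2
    · have h2 : e.symm y ∉ K := fun h => h1 (hKs h).2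
      have h3 : ∀ᶠ z in 𝓝 y, e.symm z ∉ K := by
        have h4 : ContinuousAt e.symm y := e.continuousAt_symm hy
        exact h4.eventually (hKc.isClosed.isOpen_compl.mem_nhds h2)
      refine (contDiffAt_const (c := (0 : ℝ))).congr_of_eventuallyEq ?_
      filter_upwards [h3] with z hz
      exact hsup _ hz
  · intro m
    by_cases h1 : m ∈ c.source
    · rw [hψ m h1]; exact b.nonneg
    · rw [hψ0 m h1]
  · exact c.isOpen_inter_preimage Metric.isOpen_ball
  · exact ⟨hxs, by rw [mem_preimage]; exact Metric.mem_ball_self hr⟩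
  · intro m hm
    rw [hψ m hm.1]
    exact b.pos_of_mem_ball hm.2

end B2aux

open B2aux

/-- finite smooth partition of unity subordinate to a given choice of neighbourhoods; the charts
are the charts `chartAt (p i)` -/
theorem exists_partition [CompactSpace M] [T2Space M] (U : M → Set M) (hU : ∀ x, U x ∈ 𝓝 x) :
    ∃ (N : ℕ) (p : Fin N → M) (χ : Fin N → M → ℝ),
      (∀ i, Sm n fun x => ((χ i x : ℝ) : ℂ)) ∧ (∀ i x, 0 ≤ χ i x) ∧ (∀ x, ∑ i, χ i x = 1) ∧
      ∀ i, tsupport (χ i) ⊆ U (p i) ∩ (chartAt (E n) (p i)).source := by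
  choose ψ hψ hψ0 hW hts using fun x => exists_bump (n := n) (M := M) U hU x
  choose W hWo hxW hWpos using hW
  obtain ⟨t, ht⟩ := isCompact_univ.elim_finite_subcover W hWo
    (fun x _ => mem_iUnion.2 ⟨x, hxW x⟩)
  let p : Fin t.card → M := fun i => (t.equivFin.symm i : M)
  let S : M → ℝ := fun m => ∑ i, ψ (p i) m
  have hS : ∀ m, 0 < S m := by
    intro m
    obtain ⟨x, hx⟩ := mem_iUnion.1 (ht (mem_univ m))
    obtain ⟨hxt, hxm⟩ := mem_iUnion.1 hx
    refine Finset.sum_pos' (fun i _ => hψ0 _ m) ⟨t.equivFin ⟨x, hxt⟩, Finset.mem_univ _, ?_⟩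
    have : p (t.equivFin ⟨x, hxt⟩) = x := by
      simp [p]
    rw [this]
    exact hWpos x m hxm
  refine ⟨t.card, p, fun i m => ψ (p i) m / S m, ?_, ?_, ?_, ?_⟩
  · intro i
    refine SmR.sm fun e he => ?_
    refine (hψ (p i) e he).div ?_ fun y _ => (hS _).ne'
    exact ContDiffOn.sum fun j _ => hψ (p j) e he
  · intro i m
    exact div_nonneg (hψ0 _ m) (hS m).le
  · intro m
    rw [← Finset.sum_div]
    exact div_self (hS m).ne'
  · intro i
    refine (closure_mono ?_).trans (hts (p i))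
    intro m hm h
    refine hm ?_
    show ψ (p i) m / S m = 0
    rw [h, zero_div]

theorem ext_isSec [T2Space M] (k : ℕ) {e : Ch n M} (he : e ∈ atlas (E n) M) {u : E n → ℂ}
    (hu : ContDiff ℝ ∞ u) (hc : HasCompactSupport u) (hs : tsupport u ⊆ e.target) :
    IsSec k (ext k e u : Fam n M ℂ) := by
  classical
  have hval : ∀ e' : Ch n M, ∀ y, y ∈ e'.target → e'.symm y ∈ e.source →
      (ext k e u : Fam n M ℂ) e' y = jac e e' (e (e'.symm y)) ^ k * u (e (e'.symm y)) := by
    intro e' y h1 h2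
    unfold ext
    exact if_pos ⟨h1, h2⟩
  have hval0 : ∀ e' : Ch n M, ∀ y, e'.symm y ∉ e.source →
      (ext k e u : Fam n M ℂ) e' y = 0 := by
    intro e' y h2
    unfold ext
    exact if_neg fun h => h2 h.2
  set K : Set M := e.symm '' tsupport u with hK
  have hKc : IsCompact K := IsCompact.image_of_continuousOn hc (e.continuousOn_symm.mono hs)
  have hKs : K ⊆ e.source := by
    rintro _ ⟨y, hy, rfl⟩
    exact e.map_target (hs hy)
  refine ⟨?_, ?_⟩
  · intro e' he'
    refine contDiffOn_of_local fun y hy => ?_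
    by_cases h1 : e'.symm y ∈ e.source
    · have hmem : y ∈ e'.target ∩ e'.symm ⁻¹' e.source := ⟨hy, h1⟩
      have h2 : ContDiffAt ℝ ∞ (fun z => e (e'.symm z)) y :=
        (trans_contDiffOn he' he).contDiffAt ((isOpen_trans e' e).mem_nhds hmem)
      have h3 : ContDiffAt ℝ ∞ (fun z => u (e (e'.symm z))) y :=
        ContDiffAt.comp y hu.contDiffAt h2
      have h4 : e (e'.symm y) ∈ e.target ∩ e.symm ⁻¹' e'.source :=
        mem_trans_of_mem h1 (e'.map_target hy)
      have h5 : ContDiffAt ℝ ∞ (jac e e') (e (e'.symm y)) :=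
        (((jac_analytic he he').contDiffOn (isOpen_trans e e').uniqueDiffOn).restrict_scalars ℝ
          |>.contDiffAt ((isOpen_trans e e').mem_nhds h4))
      have h5' : ContDiffAt ℝ ∞ (jac e e') ((fun z => e (e'.symm z)) y) := h5
      have h6 : ContDiffAt ℝ ∞ ((jac e e') ∘ fun z => e (e'.symm z)) y :=
        ContDiffAt.comp y h5' h2
      refine ((h6.pow k).mul h3).congr_of_eventuallyEq ?_
      filter_upwards [(isOpen_trans e' e).mem_nhds hmem] with z hz
      exact hval e' z hz.1 hz.2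
    · have h2 : e'.symm y ∉ K := fun h => h1 (hKs h)
      have h3 : ∀ᶠ z in 𝓝 y, e'.symm z ∉ K := by
        have h4 : ContinuousAt e'.symm y := e'.continuousAt_symm hy
        exact h4.eventually (hKc.isClosed.isOpen_compl.mem_nhds h2)
      refine (contDiffAt_const (c := (0 : ℂ))).congr_of_eventuallyEq ?_
      filter_upwards [h3, e'.open_target.mem_nhds hy] with z hz hzt
      by_cases h5 : e'.symm z ∈ e.source
      · rw [hval e' z hzt h5]
        have h6 : e (e'.symm z) ∉ tsupport u := fun h => hz ⟨_, h, e.left_inv h5⟩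
        rw [image_eq_zero_of_notMem_tsupport h6, mul_zero]
      · exact hval0 e' z h5
  · intro e1 he1 e2 he2 x hx
    by_cases h1 : x ∈ e.source
    · have h2 : e2.symm (e2 x) = x := e2.left_inv hx.2
      have h3 : e1.symm (e1 x) = x := e1.left_inv hx.1
      rw [hval e2 _ (e2.map_source hx.2) (by rw [h2]; exact h1),
        hval e1 _ (e1.map_source hx.1) (by rw [h3]; exact h1), h2, h3,
        jac_mul he he1 he2 h1 hx.1 hx.2, mul_pow, mul_assoc]
    · have h2 : e2.symm (e2 x) = x := e2.left_inv hx.2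
      have h3 : e1.symm (e1 x) = x := e1.left_inv hx.1
      rw [hval0 e2 _ (by rw [h2]; exact h1), hval0 e1 _ (by rw [h3]; exact h1), mul_zero]

theorem ext_apply (k : ℕ) {e : Ch n M} (he : e ∈ atlas (E n) M) (u : E n → ℂ) {y : E n}
    (hy : y ∈ e.target) : (ext k e u : Fam n M ℂ) e y = u y := by
  classical
  unfold ext
  rw [if_pos ⟨hy, e.map_target hy⟩, jac_self he (e.map_target hy), one_pow, one_mul, e.right_inv hy]

/-- multiplication of a section by a smooth function -/
theorem IsSec.smul_fun {k : ℕ} {s : Fam n M ℂ} (hs : IsSec k s) {f : M → ℂ} (hf : Sm n f) :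
    IsSec k (fun e y => f (e.symm y) * s e y : Fam n M ℂ) := by
  refine ⟨fun e he => (hf e he).mul (hs.smooth e he), ?_⟩
  intro e he e' he' x hx
  show f (e'.symm (e' x)) * s e' (e' x) = _ * (f (e.symm (e x)) * s e (e x))
  rw [e.left_inv hx.1, e'.left_inv hx.2, hs.trans e he e' he' x hx]
  ring

/-- cutting off a section by a function with compact support in a chart -/
theorem contDiff_cut [T2Space M] {k : ℕ} {s : Fam n M ℂ} (hs : IsSec k s) {e : Ch n M}
    (he : e ∈ atlas (E n) M) {χ : M → ℝ} (hχ : Sm n fun x => ((χ x : ℝ) : ℂ))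
    (hc : IsCompact (tsupport χ)) (hsupp : tsupport χ ⊆ e.source) :
    ContDiff ℝ ∞ (Set.indicator e.target fun y => ((χ (e.symm y) : ℝ) : ℂ) * s e y) ∧
    HasCompactSupport (Set.indicator e.target fun y => ((χ (e.symm y) : ℝ) : ℂ) * s e y) ∧
    tsupport (Set.indicator e.target fun y => ((χ (e.symm y) : ℝ) : ℂ) * s e y) ⊆ e.target := by
  set g : E n → ℂ := Set.indicator e.target fun y => ((χ (e.symm y) : ℝ) : ℂ) * s e y with hg
  set K : Set (E n) := e '' tsupport χ with hK
  have hKc : IsCompact K := hc.image_of_continuousOn (e.continuousOn.mono hsupp)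
  have hKs : K ⊆ e.target := by
    rintro _ ⟨m, hm, rfl⟩
    exact e.map_source (hsupp hm)
  have h0 : ∀ z, z ∉ K → g z = 0 := by
    intro z hz
    by_cases h1 : z ∈ e.target
    · rw [hg, indicator_of_mem h1]
      have h2 : e.symm z ∉ tsupport χ := fun h => hz ⟨_, h, e.right_inv h1⟩
      rw [image_eq_zero_of_notMem_tsupport h2]
      simp
    · rw [hg, indicator_of_notMem h1]
  have hts : tsupport g ⊆ K := by
    refine closure_minimal ?_ hKc.isClosed
    intro z hz
    by_contra h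
    exact hz (h0 z h)
  refine ⟨?_, HasCompactSupport.of_support_subset_isCompact hKc (subset_closure.trans hts),
    hts.trans hKs⟩
  rw [contDiff_iff_contDiffAt]
  intro y
  by_cases hy : y ∈ e.target
  · have h1 : ContDiffOn ℝ ∞ (fun y => ((χ (e.symm y) : ℝ) : ℂ) * s e y) e.target :=
      (hχ e he).mul (hs.smooth e he)
    refine (h1.contDiffAt (e.open_target.mem_nhds hy)).congr_of_eventuallyEq ?_
    filter_upwards [e.open_target.mem_nhds hy] with z hz
    exact indicator_of_mem hz _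
  · have h1 : y ∉ K := fun h => hy (hKs h)
    refine (contDiffAt_const (c := (0 : ℂ))).congr_of_eventuallyEq ?_
    filter_upwards [hKc.isClosed.isOpen_compl.mem_nhds h1] with z hz
    exact h0 z hz

theorem ext_cut [T2Space M] {k : ℕ} {s : Fam n M ℂ} (hs : IsSec k s) {e : Ch n M}
    (he : e ∈ atlas (E n) M) {χ : M → ℝ} (hsupp : tsupport χ ⊆ e.source)
    {e' : Ch n M} (he' : e' ∈ atlas (E n) M) {y : E n} (hy : y ∈ e'.target) :
    (ext k e (Set.indicator e.target fun y => ((χ (e.symm y) : ℝ) : ℂ) * s e y) : Fam n M ℂ) e' y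
      = ((χ (e'.symm y) : ℝ) : ℂ) * s e' y := by
  classical
  unfold ext
  by_cases h1 : e'.symm y ∈ e.source
  · rw [if_pos ⟨hy, h1⟩, indicator_of_mem (e.map_source h1), e.left_inv h1]
    have h2 := hs.trans e he e' he' (e'.symm y) ⟨h1, e'.map_target hy⟩
    rw [e'.right_inv hy] at h2
    rw [h2]
    ring
  · rw [if_neg fun h => h1 h.2]
    have h2 : e'.symm y ∉ tsupport χ := fun h => h1 (hsupp h)
    rw [image_eq_zero_of_notMem_tsupport h2]
    simp

theorem IsSec.add {k : ℕ} {s t : Fam n M ℂ} (hs : IsSec k s) (ht : IsSec k t) :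
    IsSec k (s + t) := by
  refine ⟨fun e he => (hs.smooth e he).add (ht.smooth e he), ?_⟩
  intro e he e' he' x hx
  show s e' (e' x) + t e' (e' x) = _ * (s e (e x) + t e (e x))
  rw [hs.trans e he e' he' x hx, ht.trans e he e' he' x hx]
  ring

theorem IsSec.sub {k : ℕ} {s t : Fam n M ℂ} (hs : IsSec k s) (ht : IsSec k t) :
    IsSec k (s - t) := by
  refine ⟨fun e he => (hs.smooth e he).sub (ht.smooth e he), ?_⟩
  intro e he e' he' x hx
  show s e' (e' x) - t e' (e' x) = _ * (s e (e x) - t e (e x))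
  rw [hs.trans e he e' he' x hx, ht.trans e he e' he' x hx]
  ring

theorem IsSec.smul {k : ℕ} {s : Fam n M ℂ} (hs : IsSec k s) (c : ℂ) : IsSec k (c • s) := by
  refine ⟨fun e he => ?_, ?_⟩
  · have h1 : ContDiffOn ℝ ∞ (fun y => c * s e y) e.target :=
      contDiffOn_const.mul (hs.smooth e he)
    exact h1
  · intro e he e' he' x hx
    show c * s e' (e' x) = _ * (c * s e (e x))
    rw [hs.trans e he e' he' x hx]
    ring

theorem IsSec.zero (k : ℕ) : IsSec k (0 : Fam n M ℂ) := by
  refine ⟨fun e he => contDiffOn_const, ?_⟩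
  intro e he e' he' x hx
  show (0 : ℂ) = _ * (0 : ℂ)
  rw [mul_zero]

theorem IsSec.sum {k : ℕ} {ι : Type*} (t : Finset ι) {s : ι → Fam n M ℂ}
    (hs : ∀ i ∈ t, IsSec k (s i)) : IsSec k (∑ i ∈ t, s i) :=
  Finset.sum_induction s (IsSec k) (fun _ _ h1 h2 => h1.add h2) (IsSec.zero k) hs

theorem IsHol.add {k : ℕ} {s t : Fam n M ℂ} (hs : IsHol k s) (ht : IsHol k t) :
    IsHol k (s + t) :=
  ⟨hs.toIsSec.add ht.toIsSec, fun e he => (hs.hol e he).add (ht.hol e he)⟩

theorem IsHol.sub {k : ℕ} {s t : Fam n M ℂ} (hs : IsHol k s) (ht : IsHol k t) :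
    IsHol k (s - t) :=
  ⟨hs.toIsSec.sub ht.toIsSec, fun e he => (hs.hol e he).sub (ht.hol e he)⟩

theorem IsHol.smul {k : ℕ} {s : Fam n M ℂ} (hs : IsHol k s) (c : ℂ) : IsHol k (c • s) :=
  ⟨hs.toIsSec.smul c, fun e he => (hs.hol e he).const_smul c⟩

theorem IsHol.sum {k : ℕ} {ι : Type*} (t : Finset ι) {s : ι → Fam n M ℂ}
    (hs : ∀ i ∈ t, IsHol k (s i)) : IsHol k (∑ i ∈ t, s i) :=
  Finset.sum_induction s (IsHol k) (fun _ _ h1 h2 => h1.add h2)
    ⟨IsSec.zero k, fun e he => differentiableOn_const (0 : ℂ)⟩ hs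

/-- a family of functions holomorphic in the charts with the transformation rule is a section -/
theorem isHol_of {k : ℕ} {s : Fam n M ℂ} (h : ∀ e ∈ atlas (E n) M, DifferentiableOn ℂ (s e) e.target)
    (ht : ∀ e ∈ atlas (E n) M, ∀ e' ∈ atlas (E n) M, ∀ x ∈ e.source ∩ e'.source,
      s e' (e' x) = jac e e' (e x) ^ k * s e (e x)) : IsHol k s :=
  ⟨⟨fun e he => (Pool.Agent.helper96.Zd.contDiffOn_of_differentiableOn e.open_target
    (h e he)).restrict_scalars ℝ, ht⟩, h⟩

/-- smooth functions are the sections of `-0K` -/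
theorem isSec_zero_iff {f : M → ℂ} : Sm n f ↔ IsSec 0 (fun e y => f (e.symm y) : Fam n M ℂ) := by
  constructor
  · intro h
    refine ⟨h, ?_⟩
    intro e he e' he' x hx
    show f (e'.symm (e' x)) = _ ^ 0 * f (e.symm (e x))
    rw [e.left_inv hx.1, e'.left_inv hx.2, pow_zero, one_mul]
  · intro h
    exact h.smooth

end Pool.Agent.helper63.NU
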