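import Pool.Agent.helper63.NU.Defs2
import Pool.Agent.helper22.Zd.O

set_option autoImplicit false
set_option linter.all false

/-! Module A9: holomorphic functions on open subsets of `ℂ^n`. -/

open MeasureTheory Filter Topology Set
open scoped ContDiff Manifold Matrix ENNReal ComplexOrder

noncomputable section

namespace Pool.Agent.helper63.NU

variable {n : ℕ}

namespace A9aux

theorem dz_hol' {f : E n → ℂ} {y : E n} (hf : DifferentiableAt ℂ f y) (j : Fin n) :
    dz j f y = fderiv ℂ f y (Pi.single j 1) := by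
  have h1 : fderiv ℝ f y = (fderiv ℂ f y).restrictScalars ℝ := hf.fderiv_restrictScalars ℝ
  have h2 : (Pi.single j Complex.I : E n) = Complex.I • (Pi.single j 1 : E n) := by
    ext i
    by_cases hi : i = j
    · subst hi; simp
    · simp [hi]
  unfold dz
  rw [h1]
  simp only [ContinuousLinearMap.coe_restrictScalars']
  rw [h2, map_smul, smul_eq_mul, ← mul_assoc, Complex.I_mul_I]
  ring

theorem hol_dz {U : Set (E n)} (hU : IsOpen U) {f : E n → ℂ} (hf : DifferentiableOn ℂ f U)
    (j : Fin n) : DifferentiableOn ℂ (dz j f) U := by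
  have h1 := Pool.Agent.helper96.Zd.OM.differentiableOn_fderiv_apply hU hf (Pi.single j 1)
  refine h1.congr fun y hy => ?_
  exact dz_hol' (hf.differentiableAt (hU.mem_nhds hy)) j

theorem hol_tc {U : Set (E n)} (hU : IsOpen U) (m : ℕ) (α : Fin m → Fin n) {f : E n → ℂ}
    (hf : DifferentiableOn ℂ f U) : DifferentiableOn ℂ (tc m α f) U := by
  induction m generalizing f with
  | zero => exact hf
  | succ m ih => exact ih _ (hol_dz hU hf _)

theorem tc_snoc (m : ℕ) (α : Fin m → Fin n) (j : Fin n) (f : E n → ℂ) :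
    tc (m + 1) (Fin.snoc α j) f = dz j (tc m α f) := by
  induction m generalizing f with
  | zero => rfl
  | succ m ih =>
    have h1 : (Fin.snoc α j : Fin (m + 2) → Fin n) 0 = α 0 := by
      have := Fin.snoc_castSucc (α := fun _ => Fin n) j α 0
      simpa using this
    have h2 : (fun i : Fin (m + 1) => (Fin.snoc α j : Fin (m + 2) → Fin n) i.succ)
        = Fin.snoc (fun i : Fin m => α i.succ) j := by
      funext i
      refine Fin.lastCases ?_ (fun k => ?_) i
      · rw [Fin.succ_last, Fin.snoc_last, Fin.snoc_last]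
      · rw [Fin.snoc_castSucc, ← Fin.castSucc_succ, Fin.snoc_castSucc]
    show tc (m + 1) (fun i : Fin (m + 1) => (Fin.snoc α j : Fin (m + 2) → Fin n) i.succ)
      (dz ((Fin.snoc α j : Fin (m + 2) → Fin n) 0) f) = dz j (tc m (fun i => α i.succ) (dz (α 0) f))
    rw [h1, h2, ih]

theorem fderiv_eq_sum_dz {f : E n → ℂ} {y : E n} (hf : DifferentiableAt ℂ f y) (v : E n) :
    fderiv ℂ f y v = ∑ j, v j * dz j f y := by
  have h1 : v = ∑ j, v j • (Pi.single j 1 : E n) := by
    ext i
    simp [Finset.sum_apply, Pi.single_apply]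
  conv_lhs => rw [h1]
  rw [map_sum]
  refine Finset.sum_congr rfl fun j _ => ?_
  rw [map_smul, dz_hol' hf j, smul_eq_mul]

/-- line derivatives -/
theorem iteratedDeriv_line {U : Set (E n)} (hU : IsOpen U) {f : E n → ℂ}
    (hf : DifferentiableOn ℂ f U) (x v : E n) (m : ℕ) (z : ℂ) (hz : x + z • v ∈ U) :
    iteratedDeriv m (fun w : ℂ => f (x + w • v)) z
      = ∑ α : Fin m → Fin n, (∏ i, v (α i)) * tc m α f (x + z • v) := by
  induction m generalizing z with
  | zero =>
    simp [tc]
  | succ m ih =>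
    rw [iteratedDeriv_succ]
    have hcont : Continuous fun w : ℂ => x + w • v := by fun_prop
    have hev : (iteratedDeriv m fun w : ℂ => f (x + w • v)) =ᶠ[𝓝 z]
        fun w => ∑ α : Fin m → Fin n, (∏ i, v (α i)) * tc m α f (x + w • v) := by
      filter_upwards [(hU.preimage hcont).mem_nhds hz] with w hw
      exact ih w hw
    rw [hev.deriv_eq]
    have hd : ∀ α : Fin m → Fin n, HasDerivAt (fun w : ℂ => (∏ i, v (α i)) * tc m α f (x + w • v))
        ((∏ i, v (α i)) * ∑ j, v j * tc (m + 1) (Fin.snoc α j) f (x + z • v)) z := by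
      intro α
      have h1 : DifferentiableAt ℂ (tc m α f) (x + z • v) :=
        (hol_tc hU m α hf).differentiableAt (hU.mem_nhds hz)
      have h2 : HasDerivAt (fun w : ℂ => x + w • v) v z := by
        simpa using ((hasDerivAt_id z).smul_const v).const_add x
      have h3 := HasFDerivAt.comp_hasDerivAt (f := fun w : ℂ => x + w • v) z h1.hasFDerivAt h2
      rw [fderiv_eq_sum_dz h1 v] at h3
      have h4 := h3.const_mul (∏ i, v (α i))
      simp only [tc_snoc]
      exact h4
    have h5 := HasDerivAt.fun_sum (u := Finset.univ) fun α (_ : α ∈ Finset.univ) => hd α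
    rw [h5.deriv]
    have h6 := (Fin.snocEquiv (fun _ : Fin (m + 1) => Fin n)).sum_comp
      (fun β : Fin (m + 1) → Fin n => (∏ i, v (β i)) * tc (m + 1) β f (x + z • v))
    rw [← h6, Fintype.sum_prod_type, Finset.sum_comm]
    refine Finset.sum_congr rfl fun α _ => ?_
    rw [Finset.mul_sum]
    refine Finset.sum_congr rfl fun j _ => ?_
    have h7 : (Fin.snocEquiv (fun _ : Fin (m + 1) => Fin n)) (j, α) = Fin.snoc α j := rfl
    rw [h7, Fin.prod_univ_castSucc]
    simp only [Fin.snoc_castSucc, Fin.snoc_last]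
    ring

/-- Cauchy estimate -/
theorem norm_dz_le {p : E n} {r M δ : ℝ} (hδ : 0 < δ) {f : E n → ℂ}
    (hf : DifferentiableOn ℂ f (Metric.ball p r)) (hM : ∀ y ∈ Metric.ball p r, ‖f y‖ ≤ M)
    (j : Fin n) {q : E n} (hq : q ∈ Metric.ball p (r - δ)) : ‖dz j f q‖ ≤ M / δ := by
  have hqr : dist q p < r - δ := hq
  have hsub : ∀ w : ℂ, ‖w‖ ≤ δ → q + w • (Pi.single j 1 : E n) ∈ Metric.ball p r := by
    intro w hw
    rw [Metric.mem_ball]
    have h1 : dist (q + w • (Pi.single j 1 : E n)) p ≤ dist (q + w • (Pi.single j 1 : E n)) q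
        + dist q p := dist_triangle _ _ _
    have h2 : dist (q + w • (Pi.single j 1 : E n)) q ≤ δ := by
      rw [dist_eq_norm, add_sub_cancel_left, norm_smul]
      have h3 : ‖(Pi.single j (1 : ℂ) : E n)‖ = 1 := by
        rw [Pi.norm_single]; simp
      rw [h3, mul_one]
      exact hw
    linarith
  have hfd : DifferentiableAt ℂ f q := by
    refine hf.differentiableAt (Metric.isOpen_ball.mem_nhds ?_)
    have := hsub 0 (by simpa using hδ.le)
    simpa using this
  rw [dz_hol' hfd]
  have h2 : HasDerivAt (fun w : ℂ => q + w • (Pi.single j 1 : E n)) (Pi.single j 1) 0 := by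
    simpa using ((hasDerivAt_id (0 : ℂ)).smul_const (Pi.single j 1 : E n)).const_add q
  have hfd' : HasFDerivAt f (fderiv ℂ f q) (q + (0 : ℂ) • (Pi.single j 1 : E n)) := by
    simpa using hfd.hasFDerivAt
  have h3 := HasFDerivAt.comp_hasDerivAt (f := fun w : ℂ => q + w • (Pi.single j 1 : E n)) (0 : ℂ)
    hfd' h2
  rw [← h3.deriv]
  refine Complex.norm_deriv_le_of_forall_mem_sphere_norm_le hδ ?_ ?_
  · have hcont : Continuous fun w : ℂ => q + w • (Pi.single j 1 : E n) := by fun_prop
    have h4 : DifferentiableOn ℂ (f ∘ fun w : ℂ => q + w • (Pi.single j 1 : E n))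
        (Metric.closedBall 0 δ) := by
      refine hf.comp (by fun_prop) ?_
      intro w hw
      exact hsub w (by simpa using hw)
    have hcl : closure (Metric.ball (0 : ℂ) δ) = Metric.closedBall 0 δ :=
      closure_ball _ hδ.ne'
    refine DifferentiableOn.diffContOnCl ?_
    rw [hcl]
    exact h4
  · intro w hw
    refine hM _ (hsub w ?_)
    have : ‖w‖ = δ := by simpa using hw
    exact this.le

theorem norm_tc_le {p : E n} {δ : ℝ} (hδ : 0 < δ) (m : ℕ) (α : Fin m → Fin n) :
    ∀ (r M : ℝ) (f : E n → ℂ), DifferentiableOn ℂ f (Metric.ball p r) →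
      (∀ y ∈ Metric.ball p r, ‖f y‖ ≤ M) →
      ∀ q ∈ Metric.ball p (r - m * δ), ‖tc m α f q‖ ≤ M / δ ^ m := by
  induction m with
  | zero =>
    intro r M f hf hM q hq
    simpa [tc] using hM q (by simpa using hq)
  | succ m ih =>
    intro r M f hf hM q hq
    have h1 : DifferentiableOn ℂ (dz (α 0) f) (Metric.ball p (r - δ)) :=
      (hol_dz Metric.isOpen_ball hf _).mono (Metric.ball_subset_ball (by linarith))
    have h2 := ih (fun i => α i.succ) (r - δ) (M / δ) (dz (α 0) f) h1
      (fun y hy => norm_dz_le hδ hf hM _ hy) q (by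
        rw [Metric.mem_ball] at hq ⊢
        push_cast at hq
        linarith)
    have h3 : M / δ / δ ^ m = M / δ ^ (m + 1) := by
      rw [div_div, pow_succ']
    rw [← h3]
    exact h2

/-- the Taylor series -/
def ser (f : E n → ℂ) (p : E n) : FormalMultilinearSeries ℂ (E n) ℂ := fun m =>
  ∑ α : Fin m → Fin n, (((m.factorial : ℂ))⁻¹ * tc m α f p) •
    (ContinuousMultilinearMap.mkPiAlgebra ℂ (Fin m) ℂ).compContinuousLinearMap
      (fun i => ContinuousLinearMap.proj (R := ℂ) (φ := fun _ : Fin n => ℂ) (α i))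

theorem ser_apply (f : E n → ℂ) (p : E n) (m : ℕ) (v : E n) :
    (ser f p m) (fun _ => v) = ((m.factorial : ℂ))⁻¹ *
      ∑ α : Fin m → Fin n, (∏ i, v (α i)) * tc m α f p := by
  unfold ser
  rw [ContinuousMultilinearMap.sum_apply, Finset.mul_sum]
  refine Finset.sum_congr rfl fun α _ => ?_
  simp only [ContinuousMultilinearMap.smul_apply, ContinuousMultilinearMap.compContinuousLinearMap_apply,
    ContinuousMultilinearMap.mkPiAlgebra_apply, ContinuousLinearMap.proj_apply, smul_eq_mul]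
  ring

theorem norm_ser_le (f : E n → ℂ) (p : E n) (m : ℕ) :
    ‖ser f p m‖ ≤ ((m.factorial : ℝ))⁻¹ * ∑ α : Fin m → Fin n, ‖tc m α f p‖ := by
  unfold ser
  rw [Finset.mul_sum]
  refine (norm_sum_le _ _).trans (Finset.sum_le_sum fun α _ => ?_)
  rw [norm_smul, norm_mul, norm_inv]
  have h1 : ‖(ContinuousMultilinearMap.mkPiAlgebra ℂ (Fin m) ℂ).compContinuousLinearMap
      (fun i => ContinuousLinearMap.proj (R := ℂ) (φ := fun _ : Fin n => ℂ) (α i))‖ ≤ 1 := by
    refine ContinuousMultilinearMap.opNorm_le_bound zero_le_one fun v => ?_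
    simp only [ContinuousMultilinearMap.compContinuousLinearMap_apply,
      ContinuousMultilinearMap.mkPiAlgebra_apply, ContinuousLinearMap.proj_apply, one_mul]
    rw [norm_prod]
    exact Finset.prod_le_prod (fun i _ => norm_nonneg _) fun i _ => norm_le_pi_norm _ _
  have h2 : ‖((m.factorial : ℕ) : ℂ)‖ = (m.factorial : ℝ) := by simp
  rw [h2]
  calc (m.factorial : ℝ)⁻¹ * ‖tc m α f p‖ * _ ≤ (m.factorial : ℝ)⁻¹ * ‖tc m α f p‖ * 1 := by
        gcongr
    _ = _ := mul_one _

theorem hasFPowerSeriesAt {U : Set (E n)} (hU : IsOpen U) {f : E n → ℂ}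
    (hf : DifferentiableOn ℂ f U) {p : E n} (hp : p ∈ U) : HasFPowerSeriesAt f (ser f p) p := by
  -- a ball where `f` is bounded
  obtain ⟨r, hr, hball⟩ : ∃ r > 0, ∀ y ∈ Metric.ball p r, y ∈ U ∧ ‖f y‖ ≤ ‖f p‖ + 1 := by
    have h1 : ContinuousAt f p := (hf.differentiableAt (hU.mem_nhds hp)).continuousAt
    have h2 : ∀ᶠ y in 𝓝 p, ‖f y‖ < ‖f p‖ + 1 :=
      h1.norm.eventually_lt continuousAt_const (by linarith)
    have h3 : ∀ᶠ y in 𝓝 p, y ∈ U ∧ ‖f y‖ ≤ ‖f p‖ + 1 := by
      filter_upwards [hU.mem_nhds hp, h2] with y h4 h5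
      exact ⟨h4, h5.le⟩
    obtain ⟨r, hr, h⟩ := Metric.eventually_nhds_iff_ball.1 h3
    exact ⟨r, hr, h⟩
  set M : ℝ := ‖f p‖ + 1 with hMdef
  have hM0 : 0 < M := by positivity
  have hfb : DifferentiableOn ℂ f (Metric.ball p r) := hf.mono fun y hy => (hball y hy).1
  set ρ : ℝ := r / ((n + 1) * Real.exp 1) with hρ
  have hρ0 : 0 < ρ := by positivity
  have hρr : ρ < r := by
    rw [hρ, div_lt_iff₀ (by positivity)]
    have h1 : (1 : ℝ) < Real.exp 1 := by
      have := Real.add_one_lt_exp (x := 1) one_ne_zero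
      linarith
    have h2 : (1 : ℝ) ≤ n + 1 := by
      have : (0 : ℝ) ≤ n := Nat.cast_nonneg n
      linarith
    have h3 : (1 : ℝ) < (n + 1) * Real.exp 1 := by nlinarith
    nlinarith
  -- bound of the coefficients
  have hcoef : ∀ m : ℕ, ‖ser f p m‖ * ρ ^ m ≤ M * Real.exp 1 := by
    intro m
    have hδ : 0 < r / (m + 1 : ℝ) := by positivity
    have h1 : ∀ α : Fin m → Fin n, ‖tc m α f p‖ ≤ M / (r / (m + 1 : ℝ)) ^ m := by
      intro α
      refine norm_tc_le hδ m α r M f hfb (fun y hy => (hball y hy).2) p ?_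
      rw [Metric.mem_ball, dist_self]
      have : (m : ℝ) * (r / (m + 1)) < r := by
        rw [mul_div_assoc', div_lt_iff₀ (by positivity)]
        nlinarith
      linarith
    have h2 : ∑ α : Fin m → Fin n, ‖tc m α f p‖ ≤ (n : ℝ) ^ m * (M / (r / (m + 1 : ℝ)) ^ m) := by
      refine (Finset.sum_le_sum fun α _ => h1 α).trans ?_
      rw [Finset.sum_const, Finset.card_univ, Fintype.card_fun, Fintype.card_fin, Fintype.card_fin,
        nsmul_eq_mul]
      push_cast
      exact le_rfl
    have h3 := (norm_ser_le f p m).trans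
      (mul_le_mul_of_nonneg_left h2 (inv_nonneg.2 (Nat.cast_nonneg m.factorial)))
    have h4 : ((m : ℝ) + 1) ^ m / (m.factorial : ℝ) ≤ Real.exp (m + 1) :=
      Real.pow_div_factorial_le_exp (m + 1 : ℝ) (by positivity) m
    have h5 : Real.exp ((m : ℝ) + 1) = Real.exp 1 ^ m * Real.exp 1 := by
      rw [Real.exp_add, ← Real.exp_nat_mul, mul_one]
    calc ‖ser f p m‖ * ρ ^ m
        ≤ ((m.factorial : ℝ)⁻¹ * ((n : ℝ) ^ m * (M / (r / (m + 1 : ℝ)) ^ m))) * ρ ^ m := by
          gcongr
      _ = M * (((m : ℝ) + 1) ^ m / (m.factorial : ℝ)) * ((n / ((n + 1) * Real.exp 1)) ^ m) := by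
          rw [hρ, div_pow, div_pow, div_pow]
          field_simp
      _ ≤ M * Real.exp (m + 1) * ((n / ((n + 1) * Real.exp 1)) ^ m) := by
          gcongr
      _ = M * Real.exp 1 * ((n / (n + 1)) ^ m) := by
          rw [h5, div_pow, div_pow, mul_pow]
          field_simp
      _ ≤ M * Real.exp 1 * 1 := by
          gcongr
          refine pow_le_one₀ (by positivity) ?_
          rw [div_le_one (by positivity)]
          linarith
      _ = M * Real.exp 1 := mul_one _
  let ρ' : NNReal := ⟨ρ, hρ0.le⟩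
  refine ⟨(ρ' : ℝ≥0∞), ?_⟩
  refine ⟨?_, ?_, ?_⟩
  · exact FormalMultilinearSeries.le_radius_of_bound _ (M * Real.exp 1) fun m => hcoef m
  · have : (0 : NNReal) < ρ' := by
      exact_mod_cast hρ0
    exact_mod_cast this
  · intro y hy
    have hyρ : ‖y‖ < ρ := by
      have h1 : y ∈ Metric.ball (0 : E n) (ρ' : ℝ) := by
        rwa [← Metric.eball_coe]
      have h2 : ‖y‖ < (ρ' : ℝ) := by simpa using h1
      exact h2
    have hyr : ‖y‖ < r := hyρ.trans hρr
    -- a disc of radius > 1
    obtain ⟨R, hR1, hRy⟩ : ∃ R : NNReal, 1 < (R : ℝ) ∧ (R : ℝ) * ‖y‖ < r := by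
      rcases eq_or_lt_of_le (norm_nonneg y) with h0 | h0
      · exact ⟨2, by norm_num, by rw [← h0, mul_zero]; exact hr⟩
      · have h1 : 1 < r / ‖y‖ := by rwa [one_lt_div h0]
        obtain ⟨R, h2, h3⟩ := exists_between h1
        refine ⟨⟨R, by linarith⟩, h2, ?_⟩
        show R * ‖y‖ < r
        rwa [lt_div_iff₀ h0] at h3
    have hsub : ∀ w ∈ Metric.ball (0 : ℂ) R, p + w • y ∈ Metric.ball p r := by
      intro w hw
      rw [Metric.mem_ball, dist_eq_norm, add_sub_cancel_left, norm_smul]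
      have h1 : ‖w‖ < R := by simpa using hw
      calc ‖w‖ * ‖y‖ ≤ R * ‖y‖ := by gcongr
        _ < r := hRy
    have hg : DifferentiableOn ℂ (fun w : ℂ => f (p + w • y)) (Metric.ball 0 R) :=
      hfb.comp (f := fun w : ℂ => p + w • y) (by fun_prop) hsub
    have h1mem : (1 : ℂ) ∈ Metric.ball (0 : ℂ) R := by simpa using hR1
    have h2 := Complex.hasSum_taylorSeries_on_ball hg h1mem
    simp only [one_smul, sub_zero, one_pow] at h2
    have h3 : (fun m => (ser f p m) (fun _ => y)) = fun m : ℕ => ((m.factorial : ℂ))⁻¹ •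
        iteratedDeriv m (fun w : ℂ => f (p + w • y)) 0 := by
      funext m
      rw [ser_apply, iteratedDeriv_line hU hf p y m 0 (by simpa using hp)]
      simp
    rw [h3]
    exact h2

end A9aux

open A9aux

theorem osgood {U : Set (E n)} (hU : IsOpen U) {f : E n → ℂ} (hf : DifferentiableOn ℂ f U) :
    AnalyticOnNhd ℂ f U := fun p hp => ⟨ser f p, hasFPowerSeriesAt hU hf hp⟩

theorem contDiffOn_real_of_hol {U : Set (E n)} (hU : IsOpen U) {f : E n → ℂ}
    (hf : DifferentiableOn ℂ f U) : ContDiffOn ℝ ∞ f U :=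
  (Pool.Agent.helper96.Zd.contDiffOn_of_differentiableOn hU hf).restrict_scalars ℝ

theorem hol_limit {U : Set (E n)} (hU : IsOpen U) {f : ℕ → E n → ℂ} {g : E n → ℂ}
    (hf : ∀ i, DifferentiableOn ℂ (f i) U) (hg : TendstoLocallyUniformlyOn f g atTop U) :
    DifferentiableOn ℂ g U := by
  refine Pool.Agent.helper96.Zd.osgood hU ?_ ?_
  · exact hg.continuousOn (Frequently.of_forall fun i => (hf i).continuousOn)
  · intro x hx v
    have hcont : Continuous fun z : ℂ => x + z • v := by fun_prop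
    have hW : IsOpen ((fun z : ℂ => x + z • v) ⁻¹' U) := hU.preimage hcont
    have h1 : TendstoLocallyUniformlyOn (fun i => f i ∘ fun z : ℂ => x + z • v)
        (g ∘ fun z : ℂ => x + z • v) atTop ((fun z : ℂ => x + z • v) ⁻¹' U) :=
      hg.comp _ (mapsTo_preimage _ _) hcont.continuousOn
    have h2 := h1.differentiableOn (Eventually.of_forall fun i => by
      refine (hf i).comp (f := fun z : ℂ => x + z • v) (by fun_prop) ?_
      intro z hz
      exact hz) hW
    refine h2.differentiableAt (hW.mem_nhds ?_)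
    simpa using hx

/-- all derivatives of order `< m` vanish at `p` -/
theorem vanish_of_tc {U : Set (E n)} (hU : IsOpen U) {f : E n → ℂ} (hf : DifferentiableOn ℂ f U)
    {p : E n} (hp : p ∈ U) (m : ℕ) (h : ∀ l < m, ∀ α : Fin l → Fin n, tc l α f p = 0) :
    ∃ K : ℝ, ∀ᶠ y in 𝓝 p, ‖f y‖ ≤ K * ‖y - p‖ ^ m := by
  have h1 := (hasFPowerSeriesAt hU hf hp).isBigO_sub_partialSum_pow m
  obtain ⟨K, hK⟩ := h1.bound
  refine ⟨K, ?_⟩
  have h2 : Tendsto (fun y => y - p) (𝓝 p) (𝓝 0) := by
    have : Tendsto (fun y => y - p) (𝓝 p) (𝓝 (p - p)) := (continuous_id.sub continuous_const).tendsto p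
    simpa using this
  filter_upwards [h2.eventually hK] with y hy
  have h3 : (ser f p).partialSum m (y - p) = 0 := by
    unfold FormalMultilinearSeries.partialSum
    refine Finset.sum_eq_zero fun l hl => ?_
    rw [ser_apply]
    have : ∀ α : Fin l → Fin n, tc l α f p = 0 := h l (Finset.mem_range.1 hl)
    simp [this]
  rw [h3, sub_zero, add_sub_cancel] at hy
  simpa using hy

theorem eq_zero_of_tc {U : Set (E n)} (hU : IsOpen U) {f : E n → ℂ} (hf : DifferentiableOn ℂ f U)
    {p : E n} (hp : p ∈ U) (h : ∀ (l : ℕ) (α : Fin l → Fin n), tc l α f p = 0) :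
    ∀ᶠ y in 𝓝 p, f y = 0 := by
  obtain ⟨r, hr⟩ := hasFPowerSeriesAt hU hf hp
  have h0 : Tendsto (fun y => y - p) (𝓝 p) (𝓝 0) := by
    have : Tendsto (fun y => y - p) (𝓝 p) (𝓝 (p - p)) :=
      (continuous_id.sub continuous_const).tendsto p
    simpa using this
  have h1 : ∀ᶠ y in 𝓝 p, y - p ∈ Metric.eball (0 : E n) r :=
    h0.eventually (Metric.eball_mem_nhds _ hr.r_pos)
  filter_upwards [h1] with y hy
  have h2 := hr.hasSum hy
  have h3 : (fun m => (ser f p m) (fun _ => y - p)) = fun _ => 0 := by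
    funext m
    rw [ser_apply]
    simp [h m]
  rw [h3, add_sub_cancel] at h2
  exact h2.unique hasSum_zero

end Pool.Agent.helper63.NU
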