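import Pool.Agent.helper51.NU.B3

set_option autoImplicit false
set_option linter.all false

/-! Module F2: the slope in the direction of the order of vanishing at a point. -/

open MeasureTheory Filter Topology Set
open scoped ContDiff Manifold Matrix ENNReal ComplexOrder

noncomputable section

namespace Pool.Agent.helper63.NU

variable {n : ℕ} {M : Type*} [TopologicalSpace M] [ChartedSpace (E n) M]
  [IsManifold 𝓘(ℂ, E n) ω M]
variable [CompactSpace M] [T2Space M]
variable [MeasurableSpace M] [BorelSpace M] {μ : Measure M} {φ : Fam n M ℝ}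

namespace F2aux

theorem vol_closedBall (p : E n) {ρ : ℝ} (hρ : 0 ≤ ρ) :
    volume (Metric.closedBall p ρ) = ENNReal.ofReal ((ρ ^ 2 * Real.pi) ^ n) := by
  rw [volume_pi_closedBall p hρ]
  simp only [Complex.volume_closedBall]
  rw [Finset.prod_const, Finset.card_univ, Fintype.card_fin,
    ENNReal.ofReal_pow (by positivity), ENNReal.ofReal_mul (by positivity), ENNReal.ofReal_pow hρ]
  congr 2
  exact (ENNReal.ofReal_coe_nnreal (p := NNReal.pi)).symm

/-- lower bound of the measure of a polydisc -/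
theorem measure_ball_ge (hμ : IsDens μ φ) {e : Ch n M} (he : e ∈ atlas (E n) M) {p : E n} {ρ c : ℝ}
    (hρ : 0 ≤ ρ) (hsub : Metric.closedBall p ρ ⊆ e.target)
    (hc : ∀ y ∈ Metric.closedBall p ρ, c ≤ Real.exp (-φ e y)) (hc0 : 0 ≤ c) :
    ENNReal.ofReal (c * (ρ ^ 2 * Real.pi) ^ n) ≤ μ (e.symm '' Metric.closedBall p ρ) := by
  have hcomp : IsCompact (e.symm '' Metric.closedBall p ρ) :=
    (isCompact_closedBall p ρ).image_of_continuousOn (e.continuousOn_symm.mono hsub)
  have hmeas : MeasurableSet (e.symm '' Metric.closedBall p ρ) := hcomp.isClosed.measurableSet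
  have hsub' : e.symm '' Metric.closedBall p ρ ⊆ e.source := by
    rintro _ ⟨y, hy, rfl⟩
    exact e.map_target (hsub hy)
  have h1 := hμ e he ((e.symm '' Metric.closedBall p ρ).indicator fun _ => 1)
    (measurable_const.indicator hmeas)
  have h2 : ∫⁻ x in e.source, (e.symm '' Metric.closedBall p ρ).indicator (fun _ => (1 : ℝ≥0∞)) x ∂μ
      = μ (e.symm '' Metric.closedBall p ρ) := by
    rw [lintegral_indicator hmeas, lintegral_const, one_mul, Measure.restrict_apply_univ,
      Measure.restrict_apply hmeas, inter_eq_left.2 hsub']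
  rw [← h2, h1]
  calc ENNReal.ofReal (c * (ρ ^ 2 * Real.pi) ^ n)
      = ENNReal.ofReal c * volume (Metric.closedBall p ρ) := by
        rw [vol_closedBall p hρ, ENNReal.ofReal_mul hc0]
    _ = ∫⁻ y in Metric.closedBall p ρ, ENNReal.ofReal c := by
        rw [lintegral_const, Measure.restrict_apply_univ]
    _ ≤ ∫⁻ y in Metric.closedBall p ρ,
          (e.symm '' Metric.closedBall p ρ).indicator (fun _ => 1) (e.symm y) *
            ENNReal.ofReal (Real.exp (-φ e y)) := by
        refine setLIntegral_mono' Metric.isClosed_closedBall.measurableSet fun y hy => ?_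
        rw [indicator_of_mem (mem_image_of_mem _ hy), one_mul]
        exact ENNReal.ofReal_le_ofReal (hc y hy)
    _ ≤ _ := lintegral_mono_set hsub

end F2aux

open F2aux

/-- Module F2: the slope in the direction of the order of vanishing at a point -/
theorem jet_slope [IsProbabilityMeasure μ] (hφ : IsPos 1 φ) (hμ : IsDens μ φ) {k N : ℕ}
    {s : Fin N → Fam n M ℂ} (hs : ∀ j, IsHol k (s j)) (hne : ∀ x, 0 < ∑ j, nrm k φ (s j) x)
    {e : Ch n M} (he : e ∈ atlas (E n) M) {p : E n} (hp : p ∈ e.target) {m : Fin N → ℕ}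
    (hv : ∀ i, ∃ K : ℝ, ∀ᶠ y in 𝓝 p, ‖s i e y‖ ≤ K * ‖y - p‖ ^ m i) {θ : ℝ} (hθ : 0 < θ) :
    ∃ K : ℝ, ∀ t ≥ (0 : ℝ), -Real.log (∫ x, (∑ j, Real.exp (t * m j) * nrm k φ (s j) x) ^ (-θ) ∂μ)
      ≤ n * t + K := by
  choose K hK using hv
  have hφc : ContinuousAt (φ e) p :=
    ((hφ.smooth e he).continuousOn).continuousAt (e.open_target.mem_nhds hp)
  have hev : ∀ᶠ y in 𝓝 p, y ∈ e.target ∧ (|φ e y - φ e p| ≤ 1) ∧
      ∀ i, ‖s i e y‖ ≤ K i * ‖y - p‖ ^ m i := by
    have h1 := Metric.continuousAt_iff'.1 hφc 1 one_pos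
    filter_upwards [h1, e.open_target.mem_nhds hp, Filter.eventually_all.2 hK] with y hy hy1 hy2
    rw [Real.dist_eq] at hy
    exact ⟨hy1, hy.le, hy2⟩
  obtain ⟨r, hr, hrs⟩ := Metric.nhds_basis_closedBall.mem_iff.1 hev
  set C : ℝ := Real.exp (k * (1 - φ e p)) with hC
  set A : ℝ := 1 + ∑ j, (K j) ^ 2 * (r ^ m j) ^ 2 * C with hA
  have hA0 : 0 < A := by
    have : 0 ≤ ∑ j, (K j) ^ 2 * (r ^ m j) ^ 2 * C :=
      Finset.sum_nonneg fun j _ => by positivity
    linarith
  set c : ℝ := Real.exp (-(φ e p + 1)) with hc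
  have hc0 : 0 < c := Real.exp_pos _
  set B : ℝ := A ^ (-θ) * (c * (r ^ 2 * Real.pi) ^ n) with hB
  have hB0 : 0 < B := by positivity
  refine ⟨-Real.log B, fun t ht => ?_⟩
  set ρ : ℝ := r * Real.exp (-(t / 2)) with hρ
  have hρ0 : 0 < ρ := by positivity
  have hρr : ρ ≤ r := by
    rw [hρ]
    have : Real.exp (-(t / 2)) ≤ 1 := Real.exp_le_one_iff.2 (by linarith)
    nlinarith
  have hball : Metric.closedBall p ρ ⊆ Metric.closedBall p r := Metric.closedBall_subset_closedBall hρr
  set S : Set M := e.symm '' Metric.closedBall p ρ with hS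
  have hsub : Metric.closedBall p ρ ⊆ e.target := fun y hy => (hrs (hball hy)).1
  have hcomp : IsCompact S :=
    (isCompact_closedBall p ρ).image_of_continuousOn (e.continuousOn_symm.mono hsub)
  have hmeas : MeasurableSet S := hcomp.isClosed.measurableSet
  set W : M → ℝ := fun x => ∑ j, Real.exp (t * m j) * nrm k φ (s j) x with hW
  have hnn : ∀ j x, 0 ≤ nrm k φ (s j) x := fun j x => by unfold nrm; positivity
  have hW0 : ∀ x, 0 < W x := by
    intro x
    refine (hne x).trans_le (Finset.sum_le_sum fun j _ => ?_)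
    have h1 : (1 : ℝ) ≤ Real.exp (t * m j) := Real.one_le_exp (by positivity)
    nlinarith [hnn j x]
  have hWc : Continuous W := by
    refine continuous_finset_sum _ fun j _ => continuous_const.mul ?_
    exact continuous_nrm hφ.toIsWeight (hs j).toIsSec
  have hWr : Continuous fun x => W x ^ (-θ) :=
    hWc.rpow_const fun x => Or.inl (hW0 x).ne'
  have hint : Integrable (fun x => W x ^ (-θ)) μ := by
    have := hWr.continuousOn.integrableOn_compact (μ := μ) isCompact_univ
    rwa [integrableOn_univ] at this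
  have hWle : ∀ x ∈ S, W x ≤ A := by
    rintro _ ⟨y, hy, rfl⟩
    have hyt := hsub hy
    obtain ⟨-, h2, h3⟩ := hrs (hball hy)
    have h4 : W (e.symm y) ≤ ∑ j, (K j) ^ 2 * (r ^ m j) ^ 2 * C := by
      refine Finset.sum_le_sum fun j _ => ?_
      rw [nrm_eq hφ.toIsWeight (hs j).toIsSec he (e.map_target hyt), e.right_inv hyt]
      have h5 : ‖s j e y‖ ^ 2 ≤ (K j) ^ 2 * (ρ ^ m j) ^ 2 := by
        have h6 : ‖y - p‖ ≤ ρ := by rw [← dist_eq_norm]; exact hy
        have h7 : ‖y - p‖ ^ m j ≤ ρ ^ m j := pow_le_pow_left₀ (norm_nonneg _) h6 _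
        have h8 : ‖s j e y‖ ≤ |K j| * ρ ^ m j := by
          refine (h3 j).trans ?_
          calc K j * ‖y - p‖ ^ m j ≤ |K j| * ‖y - p‖ ^ m j :=
                mul_le_mul_of_nonneg_right (le_abs_self _) (by positivity)
            _ ≤ _ := mul_le_mul_of_nonneg_left h7 (abs_nonneg _)
        calc ‖s j e y‖ ^ 2 ≤ (|K j| * ρ ^ m j) ^ 2 := pow_le_pow_left₀ (norm_nonneg _) h8 2
          _ = _ := by rw [mul_pow, sq_abs]
      have h9 : Real.exp (-(k * φ e y)) ≤ C := by
        rw [hC]
        refine Real.exp_le_exp.2 ?_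
        have := (abs_le.1 h2).1
        have hk : (0 : ℝ) ≤ k := Nat.cast_nonneg k
        nlinarith
      have h10 : Real.exp (t * m j) * (ρ ^ m j) ^ 2 = (r ^ m j) ^ 2 := by
        rw [hρ, mul_pow, mul_pow, ← Real.exp_nat_mul, ← Real.exp_nat_mul, ← mul_assoc,
          mul_comm (Real.exp (t * m j)), mul_assoc, ← Real.exp_add]
        have : t * (m j : ℝ) + ((2 : ℕ) : ℝ) * ((m j : ℝ) * -(t / 2)) = 0 := by push_cast; ring
        rw [this, Real.exp_zero, mul_one]
      calc Real.exp (t * m j) * (‖s j e y‖ ^ 2 * Real.exp (-(k * φ e y)))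
          ≤ Real.exp (t * m j) * (((K j) ^ 2 * (ρ ^ m j) ^ 2) * C) := by
            refine mul_le_mul_of_nonneg_left ?_ (Real.exp_pos _).le
            exact mul_le_mul h5 h9 (Real.exp_pos _).le (by positivity)
        _ = (K j) ^ 2 * (Real.exp (t * m j) * (ρ ^ m j) ^ 2) * C := by ring
        _ = _ := by rw [h10]
    linarith
  have hlow : B * Real.exp (-(n * t)) ≤ ∫ x, W x ^ (-θ) ∂μ := by
    have h1 : ∫ x in S, W x ^ (-θ) ∂μ ≤ ∫ x, W x ^ (-θ) ∂μ :=
      setIntegral_le_integral hint (Filter.Eventually.of_forall fun x =>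
        (Real.rpow_pos_of_pos (hW0 x) _).le)
    have h2 : ∫ x in S, A ^ (-θ) ∂μ ≤ ∫ x in S, W x ^ (-θ) ∂μ := by
      refine setIntegral_mono_on (integrable_const _).integrableOn hint.integrableOn hmeas ?_
      intro x hx
      exact Real.rpow_le_rpow_of_nonpos (hW0 x) (hWle x hx) (by linarith)
    have h3 : ∫ x in S, A ^ (-θ) ∂μ = μ.real S * A ^ (-θ) := by
      rw [setIntegral_const, smul_eq_mul]
    have h4 : c * (ρ ^ 2 * Real.pi) ^ n ≤ μ.real S := by
      have h5 := measure_ball_ge (c := c) hμ he hρ0.le hsub (fun y hy => ?_) hc0.le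
      · rw [Measure.real]
        exact (ENNReal.ofReal_le_iff_le_toReal (measure_ne_top μ _)).1 h5
      · rw [hc]
        refine Real.exp_le_exp.2 ?_
        have := (abs_le.1 (hrs (hball hy)).2.1).2
        linarith
    have h6 : (ρ ^ 2 * Real.pi) ^ n = (r ^ 2 * Real.pi) ^ n * Real.exp (-(n * t)) := by
      have h7 : ρ ^ 2 = r ^ 2 * Real.exp (-t) := by
        rw [hρ, mul_pow, ← Real.exp_nat_mul]
        congr 2
        push_cast; ring
      rw [h7, mul_right_comm, mul_pow, ← Real.exp_nat_mul]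
      congr 2
      ring
    calc B * Real.exp (-(n * t)) = (c * (ρ ^ 2 * Real.pi) ^ n) * A ^ (-θ) := by rw [h6, hB]; ring
      _ ≤ μ.real S * A ^ (-θ) := mul_le_mul_of_nonneg_right h4 (by positivity)
      _ = ∫ x in S, A ^ (-θ) ∂μ := h3.symm
      _ ≤ _ := h2.trans h1
  have h8 : Real.log (B * Real.exp (-(n * t))) ≤ Real.log (∫ x, W x ^ (-θ) ∂μ) :=
    Real.log_le_log (by positivity) hlow
  rw [Real.log_mul hB0.ne' (Real.exp_pos _).ne', Real.log_exp] at h8
  linarith

end Pool.Agent.helper63.NU
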